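import Pool.Agent.H28Z.DaDefs

open Metric Set Filter Topology

noncomputable section

namespace Pool.Agent.H28Z.Da

variable {φ : ℂ → ℂ}

lemma h192d_box {z w : ℂ} {n j : ℕ} {C : ℝ} (hz : z ∈ HH) (hC : 0 ≤ C) (hj : j ≤ n)
    (h1 : z.re ≤ w.re) (h2 : ‖w - z‖ ≤ j * C * z.re) : w ∈ Box z (1 + n * C) := by
  have hx : 0 < z.re := hz
  have hjn : (j : ℝ) ≤ n := by exact_mod_cast hj
  have hnC : 0 ≤ (n : ℝ) * C := by positivity
  have h3 : (j : ℝ) * C * z.re ≤ n * C * z.re := by gcongr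
  have hre : |(w - z).re| ≤ ‖w - z‖ := Complex.abs_re_le_norm _
  have him : |(w - z).im| ≤ ‖w - z‖ := Complex.abs_im_le_norm _
  rw [Complex.sub_re] at hre
  rw [Complex.sub_im] at him
  refine ⟨?_, ?_, ?_⟩
  · have : z.re / (1 + n * C) ≤ z.re := div_le_self hx.le (by linarith)
    linarith
  · have := (abs_le.1 hre).2
    nlinarith
  · nlinarith

lemma h192d_orbit (h : Dyn φ) {z : ℂ} (hz : z ∈ HH) (n : ℕ) {δ η β : ℝ}
    (hδ : 0 < δ) (hη : 0 < η) (hη1 : η ≤ 1) (hnη : n * η ≤ 1 / 2)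
    (hβ0 : 0 ≤ β) (hβδ : β ≤ δ) (hβ : (φ z - z).re = β * z.re)
    (hgz : ‖φ z - z‖ = δ * z.re)
    (hG : ∀ w ∈ Box z (1 + n * ((1 + δ) ^ n * (2 * δ) + 1)),
      ‖(φ w - w) - (φ z - z) - (β : ℂ) * (w - z)‖ ≤ η * z.re) :
    ∀ j : ℕ, j ≤ n → φ^[j] z ∈ HH ∧ z.re ≤ (φ^[j] z).re ∧
      ‖((φ z - z) + (β : ℂ) * (φ^[j] z - z)) - (((1 + β) ^ j : ℝ) : ℂ) * (φ z - z)‖
        ≤ (1 + β) ^ j * (j * δ * η * z.re) ∧
      (φ^[j] z).re ≤ (1 + β) ^ j * ((1 + j * η) * z.re) ∧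
      ‖φ^[j] z - z‖ ≤ j * ((1 + δ) ^ n * (2 * δ) + 1) * z.re := by
  have hx : 0 < z.re := hz
  intro j
  induction j with
  | zero =>
    intro _
    simp [hz]
  | succ j ih =>
    intro hj
    obtain ⟨h1, h2, h3, h4, h5⟩ := ih (by omega)
    set C : ℝ := (1 + δ) ^ n * (2 * δ) + 1 with hC
    have hC0 : 0 ≤ C := by positivity
    set w := φ^[j] z with hw
    have hsucc : φ^[j + 1] z = φ w := Function.iterate_succ_apply' φ j z
    have hbox : w ∈ Box z (1 + n * C) := h192d_box hz hC0 (by omega : j ≤ n) h2 h5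
    have hE := hG w hbox
    set E : ℂ := (φ w - w) - (φ z - z) - (β : ℂ) * (w - z) with hEdef
    set a : ℝ := (1 + β) ^ j with ha
    have ha1 : 1 ≤ a := one_le_pow₀ (by linarith)
    have haδ : a ≤ (1 + δ) ^ n := by
      calc a ≤ (1 + δ) ^ j := pow_le_pow_left₀ (by linarith) (by linarith) j
        _ ≤ (1 + δ) ^ n := pow_le_pow_right₀ (by linarith) (by omega)
    have hjn : (j : ℝ) ≤ n := by exact_mod_cast (by omega : j ≤ n)
    have hjη : (j : ℝ) * η ≤ 1 / 2 := le_trans (by gcongr) hnη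
    have hj0 : (0 : ℝ) ≤ j := Nat.cast_nonneg j
    have hpow : (1 + β) ^ (j + 1) = (1 + β) * a := by rw [ha]; ring
    set D : ℂ := ((φ z - z) + (β : ℂ) * (w - z)) - (a : ℂ) * (φ z - z) with hD
    rw [hsucc]
    refine ⟨h.maps w h1, h2.trans (h.re_le w h1), ?_, ?_, ?_⟩
    · have e : ((φ z - z) + (β : ℂ) * (φ w - z)) - (((1 + β) ^ (j + 1) : ℝ) : ℂ) * (φ z - z)
          = ((1 + β : ℝ) : ℂ) * D + (β : ℂ) * E := by
        rw [hpow, hD, hEdef]; push_cast; ring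
      rw [e, hpow]
      have n1 : ‖((1 + β : ℝ) : ℂ) * D‖ = (1 + β) * ‖D‖ := by
        rw [norm_mul, Complex.norm_real, Real.norm_of_nonneg (by linarith)]
      have n2 : ‖(β : ℂ) * E‖ = β * ‖E‖ := by
        rw [norm_mul, Complex.norm_real, Real.norm_of_nonneg hβ0]
      have n3 : β * ‖E‖ ≤ δ * (η * z.re) := by gcongr
      have n4 : (1 + β) * ‖D‖ ≤ (1 + β) * (a * (j * δ * η * z.re)) := by gcongr
      have n5 : 1 ≤ (1 + β) * a := by nlinarith
      have n6 : 0 ≤ δ * (η * z.re) := by positivity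
      calc ‖((1 + β : ℝ) : ℂ) * D + (β : ℂ) * E‖ ≤ ‖((1 + β : ℝ) : ℂ) * D‖ + ‖(β : ℂ) * E‖ :=
            norm_add_le _ _
        _ ≤ (1 + β) * (a * (j * δ * η * z.re)) + δ * (η * z.re) := by rw [n1, n2]; linarith
        _ ≤ (1 + β) * (a * (j * δ * η * z.re)) + ((1 + β) * a) * (δ * (η * z.re)) := by
            nlinarith
        _ = (1 + β) * a * (((j + 1 : ℕ) : ℝ) * δ * η * z.re) := by push_cast; ring
    · have e : (φ w).re = (1 + β) * w.re + E.re := by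
        have : E.re = (φ w).re - w.re - (φ z - z).re - β * (w.re - z.re) := by
          rw [hEdef]; simp
        rw [this, hβ]; ring
      have e2 : E.re ≤ η * z.re := (Complex.re_le_norm E).trans hE
      have n5 : 1 ≤ (1 + β) * a := by nlinarith
      have n6 : 0 ≤ η * z.re := by positivity
      have n7 : (1 + β) * w.re ≤ (1 + β) * (a * ((1 + j * η) * z.re)) := by gcongr
      rw [e, hpow]
      calc (1 + β) * w.re + E.re ≤ (1 + β) * (a * ((1 + j * η) * z.re)) + η * z.re := by linarith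
        _ ≤ (1 + β) * (a * ((1 + j * η) * z.re)) + ((1 + β) * a) * (η * z.re) := by nlinarith
        _ = (1 + β) * a * ((1 + ((j + 1 : ℕ) : ℝ) * η) * z.re) := by push_cast; ring
    · have e : φ w - z = (w - z) + (E + D + (a : ℂ) * (φ z - z)) := by
        rw [hD, hEdef]; ring
      have n1 : ‖(a : ℂ) * (φ z - z)‖ = a * (δ * z.re) := by
        rw [norm_mul, Complex.norm_real, Real.norm_of_nonneg (by linarith), hgz]
      have n2 : ‖E + D + (a : ℂ) * (φ z - z)‖ ≤ C * z.re := by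
        have t1 : ‖E + D + (a : ℂ) * (φ z - z)‖ ≤ ‖E‖ + ‖D‖ + ‖(a : ℂ) * (φ z - z)‖ :=
          norm_add₃_le
        have t2 : a * (j * δ * η * z.re) ≤ a * (δ * z.re) := by
          have : (j : ℝ) * δ * η * z.re = (j * η) * (δ * z.re) := by ring
          rw [this]
          have t : 0 ≤ δ * z.re := by positivity
          have t' : (j * η) * (δ * z.re) ≤ δ * z.re := by nlinarith
          gcongr
        have t3 : η * z.re ≤ z.re := by nlinarith
        have t4 : a * (δ * z.re) ≤ (1 + δ) ^ n * (δ * z.re) := by gcongr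
        rw [n1] at t1
        rw [hC]
        nlinarith
      rw [e]
      calc ‖(w - z) + (E + D + (a : ℂ) * (φ z - z))‖
            ≤ ‖w - z‖ + ‖E + D + (a : ℂ) * (φ z - z)‖ := norm_add_le _ _
        _ ≤ j * C * z.re + C * z.re := by linarith
        _ = ((j + 1 : ℕ) : ℝ) * C * z.re := by push_cast; ring

theorem defect (h : Dyn φ) (hS : Small φ)
    (hrig : ∀ L δ η : ℝ, 1 ≤ L → 0 < δ → 0 < η →
      ∃ ε : ℝ, 0 < ε ∧ ∀ g : ℂ → ℂ, DifferentiableOn ℂ g HH → (∀ w ∈ HH, 0 ≤ (g w).re) →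
      ∀ z ∈ HH, ‖g z‖ ≤ δ * z.re → (g z).re / z.re - (deriv g z).re ≤ ε →
      ∀ w ∈ Box z L, ‖g w - g z - (((g z).re / z.re : ℝ) : ℂ) * (w - z)‖ ≤ η * z.re)
    (δ : ℝ) (hδ : 0 < δ) :
    ∃ ε : ℝ, 0 < ε ∧ ∀ z ∈ HH, ‖φ z - z‖ = δ * z.re →
      ε ≤ (φ z - z).re / z.re - (deriv (fun w => φ w - w) z).re := by
  obtain ⟨n, hn⟩ := hS (δ / 10) (by positivity)
  set η : ℝ := min (δ / 10) (1 / (2 * (n + 1))) with hηdef
  have hn0 : (0 : ℝ) ≤ n := Nat.cast_nonneg n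
  have hη : 0 < η := lt_min (by positivity) (by positivity)
  have hηδ : η ≤ δ / 10 := min_le_left _ _
  have hηn : η ≤ 1 / (2 * (n + 1)) := min_le_right _ _
  have hηn' : η * (2 * (n + 1)) ≤ 1 := by
    rwa [le_div_iff₀ (by positivity)] at hηn
  have hη1 : η ≤ 1 := by nlinarith
  have hnη : n * η ≤ 1 / 2 := by nlinarith
  set C : ℝ := (1 + δ) ^ n * (2 * δ) + 1 with hC
  have hC0 : 0 ≤ C := by positivity
  obtain ⟨ε, hε, hr⟩ := hrig (1 + n * C) δ η (by nlinarith [mul_nonneg hn0 hC0]) hδ hη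
  refine ⟨ε, hε, fun z hz hgz => ?_⟩
  by_contra hlt
  have hle := (not_le.1 hlt).le
  have hx : 0 < z.re := hz
  have hre0 : ∀ w ∈ HH, 0 ≤ (φ w - w).re := fun w hw => by
    rw [Complex.sub_re]; linarith [h.re_le w hw]
  have hG := hr (fun w => φ w - w) (h.dphi.sub differentiableOn_id) hre0 z hz hgz.le hle
  set β : ℝ := (φ z - z).re / z.re with hβdef
  have hβ : (φ z - z).re = β * z.re := by rw [hβdef]; field_simp
  have hβ0 : 0 ≤ β := div_nonneg (hre0 z hz) hx.le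
  have hβδ : β ≤ δ := by
    rw [hβdef, div_le_iff₀ hx, ← hgz]
    exact Complex.re_le_norm _
  obtain ⟨h1, h2, h3, h4, h5⟩ :=
    h192d_orbit h hz n hδ hη hη1 hnη hβ0 hβδ hβ hgz hG n le_rfl
  set w := φ^[n] z with hw
  have hbox : w ∈ Box z (1 + n * C) := h192d_box hz hC0 le_rfl h2 h5
  have hE : ‖(φ w - w) - (φ z - z) - (β : ℂ) * (w - z)‖ ≤ η * z.re := hG w hbox
  have hsm : ‖φ w - w‖ ≤ δ / 10 * w.re := hn w ⟨z, hz, rfl⟩
  set E : ℂ := (φ w - w) - (φ z - z) - (β : ℂ) * (w - z) with hEdef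
  set a : ℝ := (1 + β) ^ n with ha
  have ha1 : 1 ≤ a := one_le_pow₀ (by linarith)
  set D : ℂ := ((φ z - z) + (β : ℂ) * (w - z)) - (a : ℂ) * (φ z - z) with hD
  have e : (a : ℂ) * (φ z - z) = (φ w - w) - E - D := by rw [hD, hEdef]; ring
  have n1 : ‖(a : ℂ) * (φ z - z)‖ = a * (δ * z.re) := by
    rw [norm_mul, Complex.norm_real, Real.norm_of_nonneg (by linarith), hgz]
  have n2 : ‖(φ w - w) - E - D‖ ≤ ‖φ w - w‖ + ‖E‖ + ‖D‖ :=
    (norm_sub_le _ _).trans (by linarith [norm_sub_le (φ w - w) E])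
  rw [← e, n1] at n2
  have P : 0 < δ * z.re := by positivity
  have t1 : a * (n * δ * η * z.re) ≤ a * (δ * z.re) / 2 := by
    have : (n : ℝ) * δ * η * z.re = (n * η) * (δ * z.re) := by ring
    rw [this]
    have t' : (n * η) * (δ * z.re) ≤ 1 / 2 * (δ * z.re) := by gcongr
    nlinarith
  have t2 : η * z.re ≤ a * (δ * z.re) / 10 := by
    have : η * z.re ≤ δ / 10 * z.re := by gcongr
    nlinarith
  have t3 : δ / 10 * w.re ≤ a * (δ * z.re) * (3 / 20) := by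
    have s1 : (1 + n * η) * z.re ≤ 3 / 2 * z.re := by gcongr; linarith
    have s2 : w.re ≤ a * (3 / 2 * z.re) := h4.trans (by gcongr)
    have s3 : δ / 10 * w.re ≤ δ / 10 * (a * (3 / 2 * z.re)) := by gcongr
    linarith
  have t4 : 0 < a * (δ * z.re) := by positivity
  linarith

end Pool.Agent.H28Z.Da
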